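import Pool.Agent.Helper13.Sq.Main

/-!
# Height pairings on threefolds and their blow-ups

`Heights S`, for rational Chow rings `S` of smooth projective varieties over `ℚ̄` (with the cycles
homologous to zero): ample classes, points, push-forward along blow-ups and the height pairing of
Beilinson and Bloch. `Heights.Standard`: standard properties, for threefolds and their blow-ups.
-/

set_option autoImplicit false
set_option linter.unusedVariables false

open CategoryTheory CategoryTheory.Limits Pool.Agent.Helper81.Smash Pool.Agent.Helper13.Sq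

namespace Pool.Agent.Helper96.Bei

universe u v w

variable {𝒱 : Type u} [Category.{v} 𝒱] [HasFiniteProducts 𝒱]

/-- the group `Ch^i(X)^0` of cycles of codimension `i` homologous to zero -/
def homGr (S : HomCycles.{u, v, w} 𝒱) (X : 𝒱) (i : ℕ) : Set (S.A X) :=
  {x | x ∈ S.gr X i ∧ x ∈ S.hom X}

/-- Ample classes, classes of points, push-forward, and the height pairing. -/
structure Heights (S : HomCycles.{u, v, w} 𝒱) where
  /-- `L` is the class of an ample divisor -/
  Ample : ∀ {X : 𝒱}, S.A X → Prop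
  /-- `c` is the class of a point -/
  IsPoint : ∀ {X : 𝒱}, S.A X → Prop
  /-- the push-forward of cycles -/
  push : ∀ {Y X : 𝒱}, (Y ⟶ X) → S.A Y → S.A X
  /-- the height pairing of cycles homologous to zero -/
  ht : ∀ {X : 𝒱}, S.A X → S.A X → ℝ

namespace Heights

variable {S : HomCycles.{u, v, w} 𝒱} (H : Heights S) (K : Threefolds S)

/-- Beilinson's Q1 for `(X, L)` -/
def Lefschetz (H : Heights S) {X : 𝒱} (L : S.A X) : Prop :=
  ∀ i : ℕ, 1 ≤ i → 2 * i ≤ S.dim X + 1 →
    Set.BijOn (fun x => L ^ (S.dim X + 1 - 2 * i) * x) (homGr S X i) (homGr S X (S.dim X + 1 - i))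

/-- Beilinson's Q2 for `(X, L)` -/
def Index {X : 𝒱} (L : S.A X) : Prop :=
  ∀ i : ℕ, 1 ≤ i → 2 * i ≤ S.dim X + 1 → ∀ x ∈ homGr S X i, x ≠ 0 →
    L ^ (S.dim X + 2 - 2 * i) * x = 0 → 0 < (-1 : ℝ) ^ i * H.ht x (L ^ (S.dim X + 1 - 2 * i) * x)

/-- two statements on the powers of the divisor classes `D` on the iterated blow-ups `f : Y ⟶ X` of
`X` in points and smooth curves -/
def Powers {X : 𝒱} (L : S.A X) : Prop :=
  ∀ (Y : 𝒱) (f : Y ⟶ X) (D : S.A Y), K.IteratedBlowup f → IsDiv D →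
    (D ^ 3 ∈ S.hom Y → ∃ ξ ∈ homGr S Y 1, D ^ 3 = pullB f L ^ 2 * ξ) ∧
    (D ^ 2 ∈ S.hom Y → D ^ 2 ≠ 0 → pullB f L * D ^ 2 = 0 → 0 < H.ht (D ^ 2) (D ^ 2))

/-- the push-forward along `f` is linear and graded, and respects homological equivalence -/
structure PushGraded {Y X : 𝒱} (f : Y ⟶ X) : Prop where
  linear : IsLinearMap ℚ (H.push f : S.A Y → S.A X)
  gr : ∀ (i : ℕ) (y : S.A Y), y ∈ S.gr Y i → H.push f y ∈ S.gr X i
  hom : ∀ y : S.A Y, y ∈ S.hom Y → H.push f y ∈ S.hom X

/-- the projection formula for a birational morphism -/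
def Projection {Y X : 𝒱} (f : Y ⟶ X) : Prop :=
  H.push f 1 = 1 ∧ ∀ (a : S.A X) (y : S.A Y), H.push f (pullB f a * y) = a * H.push f y

/-- the projection formula for heights -/
def HtProjection {Y X : 𝒱} (f : Y ⟶ X) : Prop :=
  ∀ a ∈ homGr S X 2, ∀ y ∈ homGr S Y 2,
    H.ht (pullB f a) y = H.ht a (H.push f y) ∧ H.ht y (pullB f a) = H.ht (H.push f y) a

/-- the new homologically trivial 1-cycles come from the Jacobian of the centre (Neron, Tate) -/
def HtNew {Y X : 𝒱} (f : Y ⟶ X) : Prop :=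
  ∀ y ∈ homGr S Y 2, H.push f y = 0 → y ≠ 0 → 0 < H.ht y y

/-- birational invariance of the Picard variety -/
def PicInvariant {Y X : 𝒱} (f : Y ⟶ X) : Prop :=
  ∀ ξ ∈ homGr S Y 1, ∃ η ∈ homGr S X 1, ξ = pullB f η

/-- birational invariance of the group of zero-cycles -/
def ZeroInvariant {Y X : 𝒱} (f : Y ⟶ X) : Prop :=
  ∀ z ∈ S.gr Y 3, ∃ z' ∈ S.gr X 3, z = pullB f z'

/-- properties of the blow-up `f : Y ⟶ X` of a threefold in a point or in a smooth curve -/
structure BlowupStandard {Y X : 𝒱} (f : Y ⟶ X) : Prop where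
  pushGraded : H.PushGraded f
  projection : H.Projection f
  htProjection : H.HtProjection f
  htNew : H.HtNew f
  pic : PicInvariant (S := S) f
  zero : ZeroInvariant (S := S) f

/-- `f : Y ⟶ X` is the blow-up of a point with class `c`, with exceptional divisor `E` -/
structure PointStep {Y X : 𝒱} (c : S.A X) (f : Y ⟶ X) (E : S.A Y) : Prop where
  isBlowup : K.IsBlowup f
  isDiv : IsDiv E
  mul_eq : ∀ x : S.A X, IsDiv x → pullB f x * E = 0
  cube_eq : E ^ 3 = pullB f c
  point : ∀ c' : S.A X, H.IsPoint c' → H.IsPoint (pullB f c')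

/-- points of threefolds can be blown up -/
def HasPointSteps : Prop :=
  ∀ (X : 𝒱) (c : S.A X), S.dim X = 3 → H.IsPoint c →
    ∃ (Y : 𝒱) (f : Y ⟶ X) (E : S.A Y), H.PointStep K c f E

/-- the cycles of codimension 3 on a threefold are combinations of points -/
def ZeroCycles : Prop :=
  ∀ (X : 𝒱) (z : S.A X), S.dim X = 3 → z ∈ S.gr X 3 → ∃ (n : ℕ) (l l' : List (S.A X)), 0 < n ∧
    (∀ c ∈ l, H.IsPoint c) ∧ (∀ c ∈ l', H.IsPoint c) ∧ mult n z = l.sum - l'.sum

/-- Neron and Tate: positivity in codimension 1 on threefolds -/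
def NeronTate : Prop :=
  ∀ (X : 𝒱) (L : S.A X), S.dim X = 3 → H.Ample L → ∀ x ∈ homGr S X 1, x ≠ 0 → H.ht x (L ^ 2 * x) < 0

/-- the height pairing is additive on `Ch^2(X)^0` -/
def HtAdd : Prop :=
  ∀ (X : 𝒱) (x y : S.A X), x ∈ homGr S X 2 → y ∈ homGr S X 2 →
    H.ht (x + y) (x + y) = H.ht x x + H.ht x y + H.ht y x + H.ht y y

/-- standard properties of the height pairing on threefolds -/
structure Standard : Prop where
  pull_gr : ∀ {Y X : 𝒱} (f : Y ⟶ X) (i : ℕ) (a : S.A X), a ∈ S.gr X i → pullB f a ∈ S.gr Y i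
  ample_div : ∀ {X : 𝒱} (L : S.A X), H.Ample L → IsDiv L
  ht_zero : ∀ {X : 𝒱} (x : S.A X), H.ht x 0 = 0
  ht_add : H.HtAdd
  neronTate : H.NeronTate
  blowup : ∀ {Y X : 𝒱} (f : Y ⟶ X), S.dim X = 3 → K.IsBlowup f → H.BlowupStandard f
  pointSteps : H.HasPointSteps K
  zeroCycles : H.ZeroCycles

end Heights

end Pool.Agent.Helper96.Bei
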