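import Pool.Agent.Helper96.Bei.Defs

/-!
# Beilinson's conjectures for a threefold and powers of divisors on its blow-ups
-/

set_option autoImplicit false
set_option linter.unusedVariables false

open CategoryTheory CategoryTheory.Limits Pool.Agent.Helper81.Smash Pool.Agent.Helper13.Sq

namespace Pool.Agent.Helper96.Bei

universe u v w

variable {𝒱 : Type u} [Category.{v} 𝒱] [HasFiniteProducts 𝒱] {S : HomCycles.{u, v, w} 𝒱}
  (K : Threefolds S) (T : K.Standard) (H : Heights S) (h : H.Standard K)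

include h in
lemma pull_gr {Y X : 𝒱} (f : Y ⟶ X) {i : ℕ} {a : S.A X} (ha : a ∈ S.gr X i) :
    S.pull f a ∈ S.gr Y i :=
  h.pull_gr f i a ha

include h in
lemma blowup_injective {Y X : 𝒱} {f : Y ⟶ X} (hX : S.dim X = 3) (hf : K.IsBlowup f) {a : S.A X}
    (ha : S.pull f a = 0) : a = 0 := by
  have hb := h.blowup f hX hf
  have h1 := hb.projection.2 a 1
  rw [mul_one, hb.projection.1, mul_one] at h1
  have h2 : pullB f a = 0 := ha
  rw [h2, hb.pushGraded.linear.map_zero] at h1
  exact h1.symm

include T h in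
lemma iterated_injective {Y X : 𝒱} {f : Y ⟶ X} (hX : S.dim X = 3) (hf : K.IteratedBlowup f)
    {a : S.A X} (ha : S.pull f a = 0) : a = 0 := by
  induction hf with
  | id X => rwa [S.pull_id] at ha
  | comp g f hg hf ih =>
    rw [S.pull_comp] at ha
    exact ih hX (blowup_injective K H h ((iterated_dim K T hf).trans hX) hg ha)

include T h in
/-- birational invariance of `Pic⁰` -/
lemma iterated_pic {Y X : 𝒱} {f : Y ⟶ X} (hX : S.dim X = 3) (hf : K.IteratedBlowup f) {ξ : S.A Y}
    (hξ : ξ ∈ homGr S Y 1) : ∃ η ∈ homGr S X 1, ξ = S.pull f η := by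
  induction hf with
  | id X => exact ⟨ξ, hξ, (S.pull_id X ξ).symm⟩
  | comp g f hg hf ih =>
    obtain ⟨η, hη, rfl⟩ := (h.blowup g ((iterated_dim K T hf).trans hX) hg).pic ξ hξ
    obtain ⟨θ, hθ, rfl⟩ := ih hX hη
    exact ⟨θ, hθ, (S.pull_comp g f θ).symm⟩

include T h in
/-- birational invariance of zero-cycles -/
lemma iterated_zero {Y X : 𝒱} {f : Y ⟶ X} (hX : S.dim X = 3) (hf : K.IteratedBlowup f) {z : S.A Y}
    (hz : z ∈ S.gr Y 3) : ∃ z' ∈ S.gr X 3, z = S.pull f z' := by
  induction hf with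
  | id X => exact ⟨z, hz, (S.pull_id X z).symm⟩
  | comp g f hg hf ih =>
    obtain ⟨y, hy, rfl⟩ := (h.blowup g ((iterated_dim K T hf).trans hX) hg).zero z hz
    obtain ⟨x, hx, rfl⟩ := ih hX hy
    exact ⟨x, hx, (S.pull_comp g f x).symm⟩

include T h in
lemma iterated_ht {Y X : 𝒱} {f : Y ⟶ X} (hX : S.dim X = 3) (hf : K.IteratedBlowup f) {x : S.A X}
    (hx : x ∈ homGr S X 2) : H.ht (S.pull f x) (S.pull f x) = H.ht x x := by
  induction hf with
  | id X => rw [S.pull_id]
  | @comp W Y X g f hg hf ih =>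
    have hb := h.blowup g ((iterated_dim K T hf).trans hX) hg
    have hfx : S.pull f x ∈ homGr S Y 2 := ⟨pull_gr K H h f hx.1, S.pull_hom f hx.2⟩
    have h1 := (hb.htProjection _ hfx (S.pull g (S.pull f x))
      ⟨pull_gr K H h g hfx.1, S.pull_hom g hfx.2⟩).1
    have h2 : H.push g (S.pull g (S.pull f x)) = S.pull f x := by
      have := hb.projection.2 (S.pull f x) 1
      rw [mul_one, hb.projection.1, mul_one] at this
      exact this
    rw [h2] at h1
    rw [S.pull_comp, ← ih hX hx, ← h1]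
    rfl

include T h in
/-- the index statement passes to the blow-ups, for the pull-back of `L` -/
lemma iterated_pos {Y X : 𝒱} {f : Y ⟶ X} (hX : S.dim X = 3) (hf : K.IteratedBlowup f) (L : S.A X)
    (hpos : ∀ x ∈ homGr S X 2, x ≠ 0 → L * x = 0 → 0 < H.ht x x) :
    ∀ y ∈ homGr S Y 2, y ≠ 0 → S.pull f L * y = 0 → 0 < H.ht y y := by
  induction hf with
  | id X => intro y hy hy0 hLy; exact hpos y hy hy0 (by rwa [S.pull_id] at hLy)
  | @comp W Y X g f hg hf ih =>
    intro y hy hy0 hLy
    have hb := h.blowup g ((iterated_dim K T hf).trans hX) hg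
    have ih := ih hX L hpos
    set a : S.A Y := H.push g y with ha
    have hamem : a ∈ homGr S Y 2 := ⟨hb.pushGraded.gr 2 y hy.1, hb.pushGraded.hom y hy.2⟩
    have hpamem : S.pull g a ∈ homGr S W 2 := ⟨pull_gr K H h g hamem.1, S.pull_hom g hamem.2⟩
    have hpa : H.push g (S.pull g a) = a := by
      have := hb.projection.2 a 1
      rw [mul_one, hb.projection.1, mul_one] at this
      exact this
    set c : S.A W := y - S.pull g a with hc
    have hcmem : c ∈ homGr S W 2 :=
      ⟨(S.gr W 2).sub_mem hy.1 hpamem.1, (S.hom W).sub_mem hy.2 hpamem.2⟩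
    have hpc : H.push g c = 0 := by
      rw [hc, hb.pushGraded.linear.map_sub, hpa, ← ha, sub_self]
    have hyc : y = S.pull g a + c := by rw [hc]; ring
    have hLa : S.pull f L * a = 0 := by
      have h1 := hb.projection.2 (S.pull f L) y
      have h2 : pullB g (S.pull f L) * y = 0 := by rw [S.pull_comp] at hLy; exact hLy
      rw [h2, hb.pushGraded.linear.map_zero] at h1
      exact h1.symm
    have e1 : H.ht (S.pull g a) c = 0 := by
      have := (hb.htProjection a hamem c hcmem).1
      rw [hpc, h.ht_zero] at this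
      exact this
    have e2 : H.ht c (S.pull g a) = 0 := by
      have := (hb.htProjection a hamem c hcmem).2
      rw [hpc] at this
      have h3 := (hb.htProjection 0 ⟨(S.gr Y 2).zero_mem, (S.hom Y).zero_mem⟩ (S.pull g a) hpamem).1
      rw [hpa] at h3
      have h4 : pullB g (0 : S.A Y) = 0 := map_zero _
      rw [h4] at h3
      -- `ht 0 a = 0`
      have h5 := h.ht_add _ (0 : S.A Y) a ⟨(S.gr Y 2).zero_mem, (S.hom Y).zero_mem⟩ hamem
      rw [zero_add, h.ht_zero, h.ht_zero] at h5
      have h6 : H.ht (0 : S.A Y) a = 0 := by linarith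
      rw [h6] at this
      exact this
    have e3 : H.ht (S.pull g a) (S.pull g a) = H.ht a a := by
      have := (hb.htProjection a hamem _ hpamem).1
      rw [hpa] at this
      exact this
    have e4 := h.ht_add _ (S.pull g a) c hpamem hcmem
    rw [← hyc, e1, e2, e3, add_zero, add_zero] at e4
    rw [e4]
    by_cases hc0 : c = 0
    · have ha0 : a ≠ 0 := by
        intro h0
        apply hy0
        rw [hyc, h0, map_zero, zero_add, hc0]
      rw [hc0, h.ht_zero, add_zero]
      exact ih a hamem ha0 hLa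
    · have h1 := hb.htNew c hcmem hpc hc0
      by_cases ha0 : a = 0
      · rw [ha0, h.ht_zero, zero_add]
        exact h1
      · exact add_pos (ih a hamem ha0 hLa) h1

/-- `z` is a cube after blow-ups of points -/
def Cube {X : 𝒱} (z : S.A X) : Prop :=
  ∃ (Y : 𝒱) (f : Y ⟶ X) (D : S.A Y), (K.IteratedBlowup f ∧
    ∀ c : S.A X, H.IsPoint c → H.IsPoint (S.pull f c)) ∧ D ∈ S.gr Y 1 ∧ D ^ 3 = S.pull f z

lemma cube_zero (X : 𝒱) : Cube K H (0 : S.A X) := by
  refine ⟨X, 𝟙 X, 0, ⟨Threefolds.IteratedBlowup.id X, fun c hc => by rwa [S.pull_id]⟩,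
    (S.gr X 1).zero_mem, ?_⟩
  rw [map_zero]
  simp

include T h in
lemma cube_step {X : 𝒱} (hX : S.dim X = 3) {z c : S.A X} (hz : Cube K H z) (hc : H.IsPoint c) (ε : ℤ)
    (hε : ε ^ 3 = ε) : Cube K H (z + (ε : S.A X) * c) := by
  obtain ⟨Y, f, D, ⟨hf, hfp⟩, hD1, hD⟩ := hz
  obtain ⟨W, g, E, hg⟩ := h.pointSteps Y (S.pull f c) ((iterated_dim K T hf).trans hX) (hfp c hc)
  have hE : ∀ x ∈ S.gr Y 1, S.pull g x * E = 0 := hg.mul_eq
  refine ⟨W, g ≫ f, S.pull g D + (ε : S.A W) * E,
    ⟨Threefolds.IteratedBlowup.comp g f hg.isBlowup hf, ?_⟩, ?_, ?_⟩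
  · intro c' hc'
    rw [S.pull_comp]
    exact hg.point _ (hfp c' hc')
  · refine (S.gr W 1).add_mem (T.pull_div g _ hD1) ?_
    have : ((ε : ℤ) : S.A W) * E = (ε : ℚ) • E := by
      rw [Algebra.smul_def, map_intCast]
    rw [this]
    exact (S.gr W 1).smul_mem _ hg.isDiv
  · have h1 : S.pull g D * E = 0 := hE D hD1
    have h2 : E ^ 3 = S.pull g (S.pull f c) := hg.cube_eq
    have h3 : (S.pull g D + (ε : S.A W) * E) ^ 3 = S.pull g (D ^ 3) + (ε : S.A W) ^ 3 * E ^ 3 +
        (3 * S.pull g D * (ε : S.A W) + 3 * (ε : S.A W) ^ 2 * E) * (S.pull g D * E) := by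
      rw [map_pow]
      ring
    rw [h3, h1, mul_zero, add_zero, hD, h2, S.pull_comp, map_add, map_add, map_mul, map_mul,
      map_intCast, map_intCast]
    have h4 : (ε : S.A W) ^ 3 = (ε : S.A W) := by
      rw [← Int.cast_pow, hε]
    rw [h4]

include T h in
lemma cube_list {X : 𝒱} (hX : S.dim X = 3) (ε : ℤ) (hε : ε ^ 3 = ε) (l : List (S.A X))
    (hl : ∀ c ∈ l, H.IsPoint c) {z : S.A X} (hz : Cube K H z) : Cube K H (z + (ε : S.A X) * l.sum) := by
  induction l with
  | nil => simpa using hz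
  | cons c l ih =>
    have h1 := cube_step K T H h hX (ih fun c' hc' => hl c' (List.mem_cons_of_mem _ hc'))
      (hl c List.mem_cons_self) ε hε
    rw [List.sum_cons]
    have h2 : z + (ε : S.A X) * (c + l.sum) = z + (ε : S.A X) * l.sum + (ε : S.A X) * c := by ring
    rw [h2]
    exact h1

include T h in
/-- zero-cycles are cubes of divisors after blow-ups of points -/
theorem exists_cube {X : 𝒱} (hX : S.dim X = 3) {z : S.A X} (hz : z ∈ S.gr X 3) : Cube K H z := by
  obtain ⟨n, l, l', hn, hl, hl', hz'⟩ := h.zeroCycles X z hX hz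
  have h1 : ∀ m : ℕ, Cube K H ((m : S.A X) * (l.sum - l'.sum)) := by
    intro m
    induction m with
    | zero => simpa using cube_zero K H X
    | succ m ih =>
      have h2 := cube_list K T H h hX (-1) (by norm_num) l' hl'
        (cube_list K T H h hX 1 (by norm_num) l hl ih)
      have h3 : ((m + 1 : ℕ) : S.A X) * (l.sum - l'.sum) = (m : S.A X) * (l.sum - l'.sum) +
          ((1 : ℤ) : S.A X) * l.sum + ((-1 : ℤ) : S.A X) * l'.sum := by
        push_cast
        ring
      rw [h3]
      exact h2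
  obtain ⟨Y, f, D, hf, hD1, hD⟩ := h1 (n ^ 2)
  refine ⟨Y, f, (n : ℚ)⁻¹ • D, hf, (S.gr Y 1).smul_mem _ hD1, ?_⟩
  unfold mult at hz'
  rw [smul_pow, hD, ← hz', map_mul, map_mul, map_natCast, map_natCast, Nat.cast_pow, ← mul_assoc,
    ← pow_succ, Algebra.smul_def, ← mul_assoc]
  have h4 : algebraMap ℚ (S.A Y) ((n : ℚ)⁻¹ ^ 3) * (n : S.A Y) ^ (2 + 1) = 1 := by
    have : (n : S.A Y) = algebraMap ℚ (S.A Y) (n : ℚ) := by rw [map_natCast]
    rw [this, ← map_pow, ← map_mul, ← mul_pow, inv_mul_cancel₀ (by exact_mod_cast hn.ne'), one_pow,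
      map_one]
  rw [h4, one_mul]

include T h in
/-- **Theorem.** -/
theorem beilinson_iff {X : 𝒱} (hX : S.dim X = 3) (L : S.A X) (hL : H.Ample L) :
    (H.Lefschetz L ∧ H.Index L) ↔ H.Powers K L := by
  have hLdiv : L ∈ S.gr X 1 := h.ample_div L hL
  constructor
  · rintro ⟨h1, h2⟩ Y f D hf hD
    constructor
    · intro hD3
      have hD3mem : D ^ 3 ∈ S.gr Y 3 := by
        have := S.mul_mem (S.mul_mem hD hD) hD
        have e : D ^ 3 = D * D * D := by ring
        rw [e]
        exact this
      obtain ⟨z, hz, hzD⟩ := iterated_zero K T H h hX hf hD3mem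
      have hzhom : z ∈ S.hom X := by
        have key : ∀ {Y X : 𝒱} {f : Y ⟶ X}, K.IteratedBlowup f → ∀ a : S.A X, S.pull f a ∈ S.hom Y →
            a ∈ S.hom X := by
          intro Y X f hf
          induction hf with
          | id X => intro a ha; rwa [S.pull_id] at ha
          | comp g f hg hf ih =>
            intro a ha
            rw [S.pull_comp] at ha
            exact ih a (T.hom_injective g hg _ ha)
        exact key hf z (by rw [← hzD]; exact hD3)
      have h3 := h1 1 le_rfl (by omega)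
      rw [hX] at h3
      obtain ⟨η, hη, hη'⟩ := h3.surjOn ⟨hz, hzhom⟩
      refine ⟨S.pull f η, ⟨pull_gr K H h f hη.1, S.pull_hom f hη.2⟩, ?_⟩
      have hη'' : L ^ 2 * η = z := hη'
      rw [hzD, ← hη'', map_mul, map_pow]
      rfl
    · intro hD2 hne hLD
      refine iterated_pos K T H h hX hf L (fun x hx hx0 hLx => ?_) (D ^ 2) ⟨by
        have e : D ^ 2 = D * D := by ring
        rw [e]
        exact S.mul_mem hD hD, hD2⟩ hne hLD
      have h3 := h2 2 (by norm_num) (by omega) x hx hx0 (by rw [hX]; simpa using hLx)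
      rw [hX] at h3
      simpa using h3
  · intro hP
    have hNT : ∀ x ∈ homGr S X 1, x ≠ 0 → H.ht x (L ^ 2 * x) < 0 := h.neronTate X L hX hL
    constructor
    · intro i hi1 hi2
      rw [hX] at hi2 ⊢
      have hi : i = 1 ∨ i = 2 := by omega
      rcases hi with rfl | rfl
      · refine ⟨fun x hx => ⟨?_, S.hom X |>.mul_mem_left _ hx.2⟩, fun x hx y hy hxy => ?_,
          fun z hz => ?_⟩
        · have e : (L ^ (3 + 1 - 2 * 1) * x) = L * L * x := by ring
          change L ^ (3 + 1 - 2 * 1) * x ∈ S.gr X (3 + 1 - 1)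
          rw [e]
          exact S.mul_mem (S.mul_mem hLdiv hLdiv) hx.1
        · by_contra hne
          have hxy' : L ^ 2 * (x - y) = 0 := by
            have : L ^ 2 * x = L ^ 2 * y := hxy
            rw [mul_sub, this, sub_self]
          have h1 := hNT (x - y) ⟨(S.gr X 1).sub_mem hx.1 hy.1, (S.hom X).sub_mem hx.2 hy.2⟩
            (sub_ne_zero.mpr hne)
          rw [hxy', h.ht_zero] at h1
          exact lt_irrefl _ h1
        · obtain ⟨Y, f, D, ⟨hf, -⟩, hD1, hD⟩ := exists_cube K T H h hX hz.1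
          obtain ⟨ξ, hξ, hξ'⟩ := (hP Y f D hf hD1).1 (by
            rw [hD]
            exact S.pull_hom f hz.2)
          obtain ⟨η, hη, rfl⟩ := iterated_pic K T H h hX hf hξ
          refine ⟨η, hη, ?_⟩
          have h2 : S.pull f (z - L ^ 2 * η) = 0 := by
            rw [map_sub, ← hD, hξ', map_mul, map_pow]
            exact sub_self _
          have h3 := iterated_injective K T H h hX hf h2
          exact (sub_eq_zero.mp h3).symm
      · refine ⟨fun x hx => ?_, fun x _ y _ hxy => ?_, fun z hz => ⟨z, ?_, ?_⟩⟩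
        · simpa using hx
        · simpa using hxy
        · simpa using hz
        · simp
    · intro i hi1 hi2 x hx hx0 hLx
      rw [hX] at hi2 hLx ⊢
      have hi : i = 1 ∨ i = 2 := by omega
      rcases hi with rfl | rfl
      · have h1 := hNT x hx hx0
        have e : (3 + 1 - 2 * 1) = 2 := rfl
        rw [e]
        linarith
      · have hLx' : L * x = 0 := by simpa using hLx
        obtain ⟨Y, f, D, hf, hD1, hD⟩ := exists_square K T X hX x hx.1
        have hD' : D ^ 2 = S.pull f x := by rw [pow_two, hD]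
        have h2 := (hP Y f D hf hD1).2 (by
          rw [hD']
          exact S.pull_hom f hx.2) (by
          rw [hD']
          exact fun h0 => hx0 (iterated_injective K T H h hX hf h0)) (by
          rw [hD']
          change S.pull f L * S.pull f x = 0
          rw [← map_mul, hLx', map_zero])
        rw [hD', iterated_ht K T H h hX hf hx] at h2
        simpa using h2

end Pool.Agent.Helper96.Bei
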